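import Pool.Agent.H739SJ.Ext

/-!
Solvable commutative alternative algebras in characteristic three:
the space `V ⊕ Λ(V) ⊕ Λ(V) ⊕ F`.
-/

namespace Pool.Agent.J4.H9.SA

open ExteriorAlgebra Pool.Agent.H739SJ

universe u

variable {F : Type u} [Field F] {W : Type u} [AddCommGroup W] [Module F W]

/-- The underlying space `V ⊕ Λ(V) ⊕ Λ(V) ⊕ F`. -/
def Alg (_τ : ExteriorAlgebra F W →ₗ[F] F) : Type u :=
  W × ExteriorAlgebra F W × ExteriorAlgebra F W × F

variable {τ : ExteriorAlgebra F W →ₗ[F] F}

instance : AddCommGroup (Alg τ) :=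
  inferInstanceAs (AddCommGroup (W × ExteriorAlgebra F W × ExteriorAlgebra F W × F))

instance : Module F (Alg τ) :=
  inferInstanceAs (Module F (W × ExteriorAlgebra F W × ExteriorAlgebra F W × F))

namespace Alg

/-- the `V`-component -/
def c (X : Alg τ) : W := X.1
/-- the first `Λ(V)`-component -/
def al (X : Alg τ) : ExteriorAlgebra F W := X.2.1
/-- the second `Λ(V)`-component -/
def de (X : Alg τ) : ExteriorAlgebra F W := X.2.2.1
/-- the scalar component -/
def z (X : Alg τ) : F := X.2.2.2

/-- constructor -/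
def mk (c : W) (al de : ExteriorAlgebra F W) (z : F) : Alg τ := (c, al, de, z)

theorem ext {X Y : Alg τ} (h1 : X.c = Y.c) (h2 : X.al = Y.al) (h3 : X.de = Y.de)
    (h4 : X.z = Y.z) : X = Y :=
  Prod.ext h1 (Prod.ext h2 (Prod.ext h3 h4))

@[simp] theorem c_mk (a b d e) : (mk a b d e : Alg τ).c = a := rfl
@[simp] theorem al_mk (a b d e) : (mk a b d e : Alg τ).al = b := rfl
@[simp] theorem de_mk (a b d e) : (mk a b d e : Alg τ).de = d := rfl
@[simp] theorem z_mk (a b d e) : (mk a b d e : Alg τ).z = e := rfl

@[simp] theorem c_zero : (0 : Alg τ).c = 0 := rfl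
@[simp] theorem al_zero : (0 : Alg τ).al = 0 := rfl
@[simp] theorem de_zero : (0 : Alg τ).de = 0 := rfl
@[simp] theorem z_zero : (0 : Alg τ).z = 0 := rfl
@[simp] theorem c_add (X Y : Alg τ) : (X + Y).c = X.c + Y.c := rfl
@[simp] theorem al_add (X Y : Alg τ) : (X + Y).al = X.al + Y.al := rfl
@[simp] theorem de_add (X Y : Alg τ) : (X + Y).de = X.de + Y.de := rfl
@[simp] theorem z_add (X Y : Alg τ) : (X + Y).z = X.z + Y.z := rfl
@[simp] theorem c_sub (X Y : Alg τ) : (X - Y).c = X.c - Y.c := rfl
@[simp] theorem al_sub (X Y : Alg τ) : (X - Y).al = X.al - Y.al := rfl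
@[simp] theorem de_sub (X Y : Alg τ) : (X - Y).de = X.de - Y.de := rfl
@[simp] theorem z_sub (X Y : Alg τ) : (X - Y).z = X.z - Y.z := rfl
@[simp] theorem c_smul (r : F) (X : Alg τ) : (r • X).c = r • X.c := rfl
@[simp] theorem al_smul (r : F) (X : Alg τ) : (r • X).al = r • X.al := rfl
@[simp] theorem de_smul (r : F) (X : Alg τ) : (r • X).de = r • X.de := rfl
@[simp] theorem z_smul (r : F) (X : Alg τ) : (r • X).z = r • X.z := rfl

/-- half of the product -/
noncomputable def half (X Y : Alg τ) : Alg τ :=
  mk 0 (X.al * ExteriorAlgebra.ι F Y.c)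
    (sg X.de * ExteriorAlgebra.ι F Y.c + (ev X.al * od Y.al - ev X.al * ev Y.al))
    (τ (X.de * Y.al))

noncomputable instance : Mul (Alg τ) := ⟨fun X Y => half X Y + half Y X⟩

theorem mul_def (X Y : Alg τ) : X * Y = half X Y + half Y X := rfl

@[simp] theorem c_mul (X Y : Alg τ) : (X * Y).c = 0 := by
  simp [mul_def, half]

theorem al_mul (X Y : Alg τ) : (X * Y).al
    = X.al * ExteriorAlgebra.ι F Y.c + Y.al * ExteriorAlgebra.ι F X.c := by
  simp [mul_def, half]

theorem de_mul (X Y : Alg τ) : (X * Y).de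
    = (sg X.de * ExteriorAlgebra.ι F Y.c + (ev X.al * od Y.al - ev X.al * ev Y.al))
      + (sg Y.de * ExteriorAlgebra.ι F X.c + (ev Y.al * od X.al - ev Y.al * ev X.al)) := by
  simp [mul_def, half]

theorem z_mul (X Y : Alg τ) : (X * Y).z = τ (X.de * Y.al) + τ (Y.de * X.al) := by
  simp [mul_def, half]

theorem half_add_left (X Y Z : Alg τ) : half (X + Y) Z = half X Z + half Y Z := by
  refine ext ?_ ?_ ?_ ?_
  · simp [half]
  · simp [half, add_mul]
  · simp only [half, de_mk, de_add, al_add, map_add, add_mul]; abel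
  · simp [half, add_mul]

theorem half_add_right (X Y Z : Alg τ) : half X (Y + Z) = half X Y + half X Z := by
  refine ext ?_ ?_ ?_ ?_
  · simp [half]
  · simp [half, mul_add]
  · simp only [half, de_mk, de_add, al_add, c_add, map_add, mul_add]; abel
  · simp [half, mul_add]

theorem half_smul_left (r : F) (X Y : Alg τ) : half (r • X) Y = r • half X Y := by
  refine ext ?_ ?_ ?_ ?_
  · simp [half]
  · simp [half]
  · simp only [half, de_mk, de_smul, al_smul, map_smul, smul_mul_assoc, smul_add, smul_sub]
  · simp [half]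

theorem half_smul_right (r : F) (X Y : Alg τ) : half X (r • Y) = r • half X Y := by
  refine ext ?_ ?_ ?_ ?_
  · simp [half]
  · simp [half]
  · simp only [half, de_mk, de_smul, al_smul, c_smul, map_smul, mul_smul_comm, smul_add, smul_sub]
  · simp [half]

noncomputable instance : NonUnitalNonAssocRing (Alg τ) :=
  { (inferInstance : AddCommGroup (Alg τ)) with
    mul := (· * ·)
    left_distrib := fun X Y Z => by
      change X * (Y + Z) = X * Y + X * Z
      simp only [mul_def, half_add_left, half_add_right]; abel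
    right_distrib := fun X Y Z => by
      change (X + Y) * Z = X * Z + Y * Z
      simp only [mul_def, half_add_left, half_add_right]; abel
    zero_mul := fun X => by
      change (0 : Alg τ) * X = 0
      have h1 := half_smul_left (0 : F) (0 : Alg τ) X
      have h2 := half_smul_right (0 : F) X (0 : Alg τ)
      simp only [zero_smul] at h1 h2
      rw [mul_def, h1, h2, add_zero]
    mul_zero := fun X => by
      change X * (0 : Alg τ) = 0
      have h1 := half_smul_left (0 : F) (0 : Alg τ) X
      have h2 := half_smul_right (0 : F) X (0 : Alg τ)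
      simp only [zero_smul] at h1 h2
      rw [mul_def, h1, h2, add_zero] }

instance : IsScalarTower F (Alg τ) (Alg τ) := ⟨fun r X Y => by
  change (r • X) * Y = r • (X * Y)
  simp only [mul_def, half_smul_left, half_smul_right, smul_add]⟩

instance : SMulCommClass F (Alg τ) (Alg τ) := ⟨fun r X Y => by
  change r • (X * Y) = X * (r • Y)
  simp only [mul_def, half_smul_left, half_smul_right, smul_add]⟩

theorem comm (X Y : Alg τ) : X * Y = Y * X := by
  rw [mul_def, mul_def, add_comm]

end Alg

end Pool.Agent.J4.H9.SA
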