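import Pool.Agent.J4.H9.SA.Alg
import Pool.Agent.H739SJ.Jordan

/-!
The algebras `Alg τ` are alternative if the characteristic is three and the linear form `τ`
vanishes on odd elements.
-/

namespace Pool.Agent.J4.H9.SA

open ExteriorAlgebra Pool.Agent.H739SJ

universe u

variable {F : Type u} [Field F] {W : Type u} [AddCommGroup W] [Module F W]
variable {τ : ExteriorAlgebra F W →ₗ[F] F}

/-- the product `Λ × Λ → Λ`, the ordinary one without the product of the odd parts -/
noncomputable def br (x y : ExteriorAlgebra F W) : ExteriorAlgebra F W :=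
  ev x * ev y + ev x * od y + ev y * od x

theorem two_ne (h3 : (3 : F) = 0) : (2 : F) ≠ 0 := by
  intro h2
  have : (1 : F) = 0 := by linear_combination h3 - h2
  exact one_ne_zero this

theorem smul_three (h3 : (3 : F) = 0) {M : Type*} [AddCommGroup M] [Module F M] (x : M) :
    x + x + x = 0 := by
  have : (3 : F) • x = x + x + x := by
    rw [show (3 : F) = 1 + 1 + 1 by norm_num, add_smul, add_smul, one_smul]
  rw [← this, h3, zero_smul]

theorem ev_sg (x : ExteriorAlgebra F W) : ev (sg x) = ev x := by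
  rw [ev_apply, ev_apply, sg_sg, add_comm]

theorem od_sg (x : ExteriorAlgebra F W) : od (sg x) = -od x := by
  rw [od_apply, od_apply, sg_sg, ← smul_neg, neg_sub]

namespace Alg

theorem de_mul' (h3 : (3 : F) = 0) (X Y : Alg τ) : (X * Y).de
    = sg X.de * ExteriorAlgebra.ι F Y.c + sg Y.de * ExteriorAlgebra.ι F X.c + br X.al Y.al := by
  have h2 := two_ne h3
  rw [de_mul, br]
  have e1 : ev Y.al * ev X.al = ev X.al * ev Y.al := ev_comm h2 _ _
  have e2 := smul_three h3 (ev X.al * ev Y.al)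
  rw [e1]
  have e3 : ev X.al * ev Y.al = -(ev X.al * ev Y.al + ev X.al * ev Y.al) :=
    eq_neg_of_add_eq_zero_right e2
  nth_rewrite 3 [e3]
  abel

theorem al_mulV (X Y : Alg τ) (hX : X.c = 0) : (X * Y).al = X.al * ExteriorAlgebra.ι F Y.c := by
  rw [al_mul, hX, map_zero, mul_zero, add_zero]

set_option linter.unusedSimpArgs false in
theorem alt (h3 : (3 : F) = 0) (hτ : ∀ x, τ (sg x) = τ x) (X Y : Alg τ) :
    X * (X * Y) = (X * X) * Y := by
  have h2 := two_ne h3
  obtain ⟨c, hc⟩ : ∃ c, c = X.c := ⟨_, rfl⟩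
  obtain ⟨c', hc'⟩ : ∃ c', c' = Y.c := ⟨_, rfl⟩
  have s1 : ExteriorAlgebra.ι F c' * ExteriorAlgebra.ι F c
      = -(ExteriorAlgebra.ι F c * ExteriorAlgebra.ι F c') := ι_swap _ _
  have s2 : ∀ t, ExteriorAlgebra.ι F c' * (ExteriorAlgebra.ι F c * t)
      = -(ExteriorAlgebra.ι F c * (ExteriorAlgebra.ι F c' * t)) := by
    intro t; rw [← mul_assoc, s1, neg_mul, mul_assoc]
  have hod : ∀ x, τ (od x) = 0 := by
    intro x
    rw [od_apply, map_smul, map_sub, hτ, sub_self, smul_zero]
  have hev : ∀ x, τ x = τ (ev x) := by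
    intro x
    have := congrArg τ (ev_add_od h2 x)
    rw [map_add, hod, add_zero] at this
    exact this.symm
  refine ext ?_ ?_ ?_ ?_
  · simp
  · simp only [al_mul, c_mul, map_zero, mul_zero, add_zero, ← hc, ← hc', zero_add, add_mul,
      mul_assoc, s1, mul_neg, ExteriorAlgebra.ι_sq_zero, ιsq']
    have e2 := smul_three h3 (X.al * (ExteriorAlgebra.ι F c * ExteriorAlgebra.ι F c'))
    rw [eq_comm, ← sub_eq_zero, ← e2]
    abel
  · simp only [de_mul' h3, br, al_mul, c_mul, map_zero, mul_zero, add_zero, zero_add,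
        ← hc, ← hc', map_add, map_neg, map_mul, sg_sg, sg_ι, ev_mul h2, od_mul h2, ev_ev h2,
        od_od h2, ev_od, sg_ev, sg_od,
        od_ev, ev_ι, od_ι h2, zero_mul, add_mul, mul_add, smul_add, smul_smul, smul_mul_assoc,
        mul_smul_comm, mul_assoc, s1, s2, mul_neg, neg_mul, ExteriorAlgebra.ι_sq_zero, ιsq',
        evι h2, evι' h2, odι, odι' h2, odev h2, odev' h2, od_sq h2, od_sq' h2, neg_neg,
        neg_zero]
    have e1 : ev Y.al * ev X.al = ev X.al * ev Y.al := ev_comm h2 _ _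
    have e2 : od Y.al * od X.al = -(od X.al * od Y.al) := od_anti h2 _ _
    rw [e1, e2, mul_neg, neg_neg]
    have k := smul_three h3 (X.de * (ExteriorAlgebra.ι F c * ExteriorAlgebra.ι F c')
      + ExteriorAlgebra.ι F c * (ev Y.al * od X.al) - ExteriorAlgebra.ι F c' * (ev X.al * od X.al)
      + ExteriorAlgebra.ι F c * (od X.al * od Y.al))
    rw [← sub_eq_zero, ← k]
    abel
  · simp only [z_mul, c_mul, map_zero, mul_zero, zero_mul, zero_add, add_zero]
    rw [← map_add, ← map_add, hev, hev (_ + _)]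
    simp only [de_mul' h3, br, al_mul, c_mul, map_zero, mul_zero, add_zero, zero_add,
        ← hc, ← hc', map_add, map_neg, map_mul, sg_sg, sg_ι, ev_mul h2, od_mul h2, ev_ev h2,
        od_od h2, ev_od, sg_ev, sg_od,
        od_ev, ev_ι, od_ι h2, zero_mul, add_mul, mul_add, smul_add, smul_smul, smul_mul_assoc,
        mul_smul_comm, mul_assoc, s1, s2, mul_neg, neg_mul, ExteriorAlgebra.ι_sq_zero, ιsq',
        evι h2, evι' h2, odι, odι' h2, odev h2, odev' h2, od_sq h2, od_sq' h2, neg_neg,
        neg_zero]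
    simp only [ev_sg, od_sg, mul_neg, map_neg, neg_neg]
    have e1 : ev Y.al * ev X.al = ev X.al * ev Y.al := ev_comm h2 _ _
    have e2 : od Y.al * od X.al = -(od X.al * od Y.al) := od_anti h2 _ _
    rw [e1, e2, mul_neg, map_neg]
    linear_combination (-τ (ExteriorAlgebra.ι F c * (ev X.de * od Y.al))
      - τ (ExteriorAlgebra.ι F c * (ev Y.al * od X.de))
      + τ (ExteriorAlgebra.ι F c * (ev Y.de * od X.al))
      + τ (ExteriorAlgebra.ι F c * (ev X.al * od Y.de))
      - τ (ev X.al * (od X.al * od Y.al))) * h3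

end Alg

end Pool.Agent.J4.H9.SA
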