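import Pool.Agent.J4.H9.SA.Value
import Pool.Agent.H739SJ.Main

/-!
Varieties of solvable alternative algebras in characteristic three that are not finitely based.
-/

namespace Pool.Agent.J4.H9.SA

open ExteriorAlgebra Pool.Agent.H739SJ

universe u

/-- `B` is an alternative algebra: `x²y = x(xy)` and `yx² = (yx)x`. -/
def IsAlternative (B : Type u) [NonUnitalNonAssocRing B] : Prop :=
  ∀ x y : B, (x * x) * y = x * (x * y) ∧ (y * x) * x = y * (x * x)

section top

variable (F : Type u) [Field F]

theorem sg_ιMulti {W : Type u} [AddCommGroup W] [Module F W] (k : ℕ) (v : Fin k → W) :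
    sg (ExteriorAlgebra.ιMulti F k v) = (-1 : F) ^ k • ExteriorAlgebra.ιMulti F k v := by
  rw [ExteriorAlgebra.ιMulti_apply]
  induction k with
  | zero => simp
  | succ k ih =>
    rw [List.ofFn_succ, List.prod_cons, map_mul, ih, sg_ι, pow_succ]
    simp

theorem topf_sg {m : ℕ} (hm : Even m) (x : ExteriorAlgebra F (Fin m → F)) :
    topf F m (sg x) = topf F m x := by
  have h : (topf F m) ∘ₗ (sg : ExteriorAlgebra F (Fin m → F) →ₐ[F] _).toLinearMap = topf F m := by
    apply ExteriorAlgebra.lhom_ext
    intro k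
    ext v
    simp only [LinearMap.compAlternatingMap_apply, LinearMap.comp_apply, AlgHom.toLinearMap_apply]
    rw [sg_ιMulti, map_smul]
    by_cases hk : k = m
    · have hk' : Even k := hk ▸ hm
      rw [hk'.neg_one_pow, one_smul]
    · rw [topf_ne F hk, smul_zero]
  exact LinearMap.congr_fun h x

end top

section values

variable {F : Type u} [Field F]

theorem GG_val' {W : Type u} [AddCommGroup W] [Module F W] {τ : ExteriorAlgebra F W →ₗ[F] F}
    (h3 : (3 : F) = 0) (t : ℕ → Alg τ) (n : ℕ) (hn : Even n) (x : Alg τ)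
    (y w : ℕ → Alg τ) :
    GG t n x y w = Alg.mk 0 0 0 (-τ (ev x.al ^ 3 * (wp (fun i => (y i).c) 4
      * (wp (fun i => (w i).c) 4 * wp (fun i => (t i).c) n)))) := by
  rw [Alg.GG_val h3 t n hn]
  have e1 : wp (F := F) (fun i => (y i).c) 4 = Q4 F (y 0).c (y 1).c (y 2).c (y 3).c := by
    simp only [wp, one_mul, Q4]
  have e2 : wp (F := F) (fun i => (w i).c) 4 = Q4 F (w 0).c (w 1).c (w 2).c (w 3).c := by
    simp only [wp, one_mul, Q4]
  rw [e1, e2]
  simp only [Q4, mul_assoc]

theorem GG_zero [CharP F 3] (h3 : (3 : F) = 0) (m n : ℕ) (hn : Even n) (hm : m ≠ 4 + (4 + n))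
    (t : ℕ → Alg (topf F m)) (x : Alg (topf F m)) (y w : ℕ → Alg (topf F m)) :
    GG t n x y w = 0 := by
  have : Fact (Nat.Prime 3) := ⟨Nat.prime_three⟩
  rw [GG_val' h3 t n hn x y w]
  obtain ⟨s, hs⟩ := frob (F := F) 3 (by norm_num) x.al
  obtain ⟨v, hv⟩ := wp_prod3 (F := F) (fun i => (y i).c) (fun i => (w i).c) (fun i => (t i).c)
    4 4 n
  rw [hs, hv, ← Algebra.smul_def, map_smul, topf_ne F hm.symm, smul_zero, neg_zero]
  rfl

theorem GG_ne (h3 : (3 : F) = 0) (m n : ℕ) (hn : Even n) (hm : m = 4 + (4 + n)) :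
    ∃ (t : ℕ → Alg (topf F m)) (x : Alg (topf F m)) (y w : ℕ → Alg (topf F m)),
    GG t n x y w ≠ 0 := by
  have h2 := two_ne h3
  refine ⟨fun i => Alg.mk (xi F m (4 + (4 + i))) 0 0 0,
    Alg.mk 0 1 0 0, fun i => Alg.mk (xi F m i) 0 0 0,
    fun i => Alg.mk (xi F m (4 + i)) 0 0 0, ?_⟩
  rw [GG_val' h3 _ n hn]
  intro h
  have hz := congrArg Alg.z h
  rw [Alg.z_mk, Alg.z_zero] at hz
  simp only [Alg.c_mk, Alg.al_mk] at hz
  have e1 : ev (1 : ExteriorAlgebra F (Fin m → F)) = 1 := by
    have := ev_algebraMap (W := Fin m → F) h2 1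
    simpa using this
  have e2 : wp (F := F) (fun i => xi F m i) 4
      * (wp (fun i => xi F m (4 + i)) 4
        * wp (fun i => xi F m (4 + (4 + i))) n) = wp (fun i => xi F m i) m := by
    rw [← wp_add (fun i => xi F m (4 + i)) 4 n, ← wp_add, ← hm]
  rw [e1, one_pow, one_mul, e2, wp_ιMulti, topf_eq] at hz
  have e3 : Matrix.of (fun i : Fin m => xi F m i) = 1 := by
    ext i j
    rw [Matrix.of_apply, Matrix.one_apply, xi]
    by_cases hij : i = j
    · rw [if_pos hij, if_pos (by rw [hij])]
    · rw [if_neg hij, if_neg (fun h => hij (Fin.ext h.symm))]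
  rw [e3, Matrix.det_one, neg_eq_zero] at hz
  exact one_ne_zero hz

end values

section final

open FreeNonUnitalNonAssocAlgebra

variable (F : Type u) [Field F]

/-- left alternativity -/
noncomputable def sAlt : FreeNonUnitalNonAssocAlgebra F ℕ :=
  (X F 0 * X F 0) * X F 1 - X F 0 * (X F 0 * X F 1)

/-- the infinite series of identities -/
noncomputable def sf (r : ℕ) : FreeNonUnitalNonAssocAlgebra F ℕ :=
  GG (fun i => X F (3 * i + 3)) (2 * r) (X F 0) (fun i => X F (3 * i + 1))
    (fun i => X F (3 * i + 2))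

/-- the set of identities -/
def setS : Set (FreeNonUnitalNonAssocAlgebra F ℕ) :=
  {sComm F, sAlt F, sSolv F} ∪ Set.range (sf F)

theorem setS_alt (B : Type u) [NonUnitalNonAssocRing B] [Module F B]
    [IsScalarTower F B B] [SMulCommClass F B B] (h : InVariety F (setS F) B) :
    (∀ x y : B, x * y = y * x) ∧ IsAlternative B ∧ derivedSeries F B 3 = ⊥ := by
  have hc : Satisfies F B (sComm F) := h _ (Or.inl (Or.inl rfl))
  have hj : Satisfies F B (sAlt F) := h _ (Or.inl (Or.inr (Or.inl rfl)))
  have hs : Satisfies F B (sSolv F) := h _ (Or.inl (Or.inr (Or.inr rfl)))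
  have hcomm : ∀ x y : B, x * y = y * x := by
    intro x y
    have := hc (fun i => if i = 0 then x else y)
    simp only [sComm, X, map_sub, map_mul, lift_of_apply] at this
    simpa [sub_eq_zero] using this
  have hleft : ∀ x y : B, (x * x) * y = x * (x * y) := by
    intro x y
    have := hj (fun i => if i = 0 then x else y)
    simp only [sAlt, X, map_sub, map_mul, lift_of_apply] at this
    simpa [sub_eq_zero] using this
  refine ⟨hcomm, fun x y => ⟨hleft x y, ?_⟩, ?_⟩
  · rw [hcomm (y * x) x, hcomm y x, ← hleft, hcomm]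
  · have key : ∀ a b c d e f g k : B, ((a * b) * (c * d)) * ((e * f) * (g * k)) = 0 := by
      intro a b c d e f g k
      have := hs (fun i => if i = 0 then a else if i = 1 then b else if i = 2 then c else
        if i = 3 then d else if i = 4 then e else if i = 5 then f else if i = 6 then g else k)
      simp only [sSolv, X, map_mul, lift_of_apply] at this
      simpa using this
    -- span arguments
    have gen : ∀ k : ℕ, ∀ P : B → Prop, P 0 → (∀ x y, P x → P y → P (x + y)) →
        (∀ (r : F) x, P x → P (r • x)) →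
        (∀ x ∈ derivedSeries F B k, ∀ y ∈ derivedSeries F B k, P (x * y)) →
        ∀ x ∈ derivedSeries F B (k + 1), P x := by
      intro k P h0 ha hs' hm x hx
      rw [H739SJ.derivedSeries] at hx
      induction hx using Submodule.span_induction with
      | mem x hx => obtain ⟨y, hy, z, hz, rfl⟩ := hx; exact hm y hy z hz
      | zero => exact h0
      | add x y _ _ hx hy => exact ha x y hx hy
      | smul r x _ hx => exact hs' r x hx
    rw [eq_bot_iff]
    intro x hx
    rw [Submodule.mem_bot]
    refine gen 2 (fun x => x = 0) rfl (fun x y hx hy => by rw [hx, hy, add_zero])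
      (fun r x hx => by rw [hx, smul_zero]) ?_ x hx
    intro x hx y hy
    -- x in derived 2
    have hA : ∀ x ∈ derivedSeries F B 2, ∀ e f g k : B, x * ((e * f) * (g * k)) = 0 := by
      intro x hx e f g k
      refine gen 1 (fun x => x * ((e * f) * (g * k)) = 0) (zero_mul _)
        (fun x y hx hy => by rw [add_mul, hx, hy, add_zero])
        (fun r x hx => by rw [smul_mul_assoc, hx, smul_zero]) ?_ x hx
      intro x hx y hy
      refine gen 0 (fun x => (x * y) * ((e * f) * (g * k)) = 0)
        (by rw [zero_mul, zero_mul])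
        (fun x y hx hy => by rw [add_mul, add_mul, hx, hy, add_zero])
        (fun r x hx => by rw [smul_mul_assoc, smul_mul_assoc, hx, smul_zero]) ?_ x hx
      intro a _ b _
      refine gen 0 (fun y => ((a * b) * y) * ((e * f) * (g * k)) = 0)
        (by rw [mul_zero, zero_mul])
        (fun x y hx hy => by rw [mul_add, add_mul, hx, hy, add_zero])
        (fun r x hx => by rw [mul_smul_comm, smul_mul_assoc, hx, smul_zero]) ?_ y hy
      intro c _ d _
      exact key a b c d e f g k
    refine gen 1 (fun y => x * y = 0) (mul_zero _)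
      (fun y z hy hz => by rw [mul_add, hy, hz, add_zero])
      (fun r y hy => by rw [mul_smul_comm, hy, smul_zero]) ?_ y hy
    intro y hy z hz
    refine gen 0 (fun y => x * (y * z) = 0) (by rw [zero_mul, mul_zero])
      (fun y y' hy hz => by rw [add_mul, mul_add, hy, hz, add_zero])
      (fun r y hy => by rw [smul_mul_assoc, mul_smul_comm, hy, smul_zero]) ?_ y hy
    intro a _ b _
    refine gen 0 (fun z => x * ((a * b) * z) = 0) (by rw [mul_zero, mul_zero])
      (fun y y' hy hz => by rw [mul_add, mul_add, hy, hz, add_zero])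
      (fun r y hy => by rw [mul_smul_comm, mul_smul_comm, hy, smul_zero]) ?_ z hz
    intro c _ d _
    exact hA x hx a b c d

theorem sf_eval (r : ℕ) (B : Type u) [NonUnitalNonAssocRing B] [Module F B]
    [IsScalarTower F B B] [SMulCommClass F B B] (v : ℕ → B) :
    FreeNonUnitalNonAssocAlgebra.lift F v (sf F r)
      = GG (fun i => v (3 * i + 3)) (2 * r) (v 0) (fun i => v (3 * i + 1))
        (fun i => v (3 * i + 2)) := by
  rw [sf, map_GG]
  simp only [X, lift_of_apply]

/-- the algebras -/
abbrev AA (r : ℕ) : Type u := Alg (topf F (4 + (4 + 2 * r)))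

theorem main [CharP F 3] :
    ∃ S : Set (FreeNonUnitalNonAssocAlgebra F ℕ),
      (∀ (B : Type u) [NonUnitalNonAssocRing B] [Module F B] [IsScalarTower F B B]
        [SMulCommClass F B B], InVariety F S B →
          (∀ x y : B, x * y = y * x) ∧ IsAlternative B ∧ derivedSeries F B 3 = ⊥) ∧
      ∀ T : Set (FreeNonUnitalNonAssocAlgebra F ℕ), T.Finite →
        ¬ ∀ (B : Type u) [NonUnitalNonAssocRing B] [Module F B] [IsScalarTower F B B]
          [SMulCommClass F B B], InVariety F S B ↔ InVariety F T B := by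
  have h3 : (3 : F) = 0 := by
    have := CharP.cast_eq_zero F 3
    exact_mod_cast this
  refine ⟨setS F, fun B _ _ _ _ h => setS_alt F B h, ?_⟩
  intro T hT
  refine not_fb F (AA F) (setS F) ?_ ?_ T hT
  · intro s hs
    rcases hs with (rfl | rfl | rfl) | ⟨q, rfl⟩
    · refine Filter.Eventually.of_forall fun r v => ?_
      simp only [sComm, X, map_sub, map_mul, lift_of_apply]
      rw [Alg.comm, sub_self]
    · refine Filter.Eventually.of_forall fun r v => ?_
      simp only [sAlt, X, map_sub, map_mul, lift_of_apply]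
      have he : Even (4 + (4 + 2 * r)) := ⟨4 + r, by omega⟩
      rw [Alg.alt h3 (topf_sg F he), sub_self]
    · refine Filter.Eventually.of_forall fun r v => ?_
      simp only [sSolv, X, map_mul, lift_of_apply]
      have hc : ∀ a b : AA F r, (a * b).c = 0 := fun a b => Alg.c_mul a b
      have hal : ∀ a b c d : AA F r, ((a * b) * (c * d)).al = 0 := by
        intro a b c d
        rw [Alg.al_mul, hc, hc, map_zero, mul_zero, mul_zero, add_zero]
      refine Alg.ext (hc _ _) ?_ ?_ ?_
      · rw [Alg.al_mul, hc, hc, map_zero, mul_zero, mul_zero, add_zero]; rfl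
      · rw [Alg.de_mul]
        simp only [hc, hal, map_zero, mul_zero, sub_zero, add_zero]; rfl
      · rw [Alg.z_mul, hal, hal, mul_zero, mul_zero, map_zero, add_zero]; rfl
    · have hsub : {r | ¬ Satisfies F (AA F r) (sf F q)} ⊆ {q} := by
        intro r hr
        by_contra hne
        apply hr
        intro v
        rw [sf_eval]
        refine GG_zero h3 _ _ (even_two_mul q) ?_ _ _ _ _
        intro h
        apply hne
        have : r = q := by omega
        exact this
      exact (Set.finite_singleton q).subset hsub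
  · intro r h
    have hr : Satisfies F (AA F r) (sf F r) := h _ (Or.inr ⟨r, rfl⟩)
    obtain ⟨t, x, y, w, hne⟩ := GG_ne (F := F) h3 _ (2 * r) (even_two_mul r) rfl
    apply hne
    have := hr (fun i => if i = 0 then x else if i % 3 = 1 then y (i / 3) else
      if i % 3 = 2 then w (i / 3) else t (i / 3 - 1))
    rw [sf_eval] at this
    have e1 : ∀ i, (3 * i + 1) % 3 = 1 ∧ (3 * i + 1) / 3 = i ∧ 3 * i + 1 ≠ 0 := by
      intro i; omega
    have e2 : ∀ i, (3 * i + 2) % 3 = 2 ∧ (3 * i + 2) / 3 = i ∧ 3 * i + 2 ≠ 0 := by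
      intro i; omega
    have e3 : ∀ i, (3 * i + 3) % 3 = 0 ∧ (3 * i + 3) / 3 - 1 = i ∧ 3 * i + 3 ≠ 0 := by
      intro i; omega
    simp only [e1, e2, e3, if_true, if_false] at this
    simpa using this

end final

end Pool.Agent.J4.H9.SA
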