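import Pool.Agent.J4.H9.SA.Alt
import Pool.Agent.H739SJ.Value

/-!
The polynomials `GG` and their values in `Alg τ`.
-/

namespace Pool.Agent.J4.H9.SA

open ExteriorAlgebra Pool.Agent.H739SJ

universe u v

section polys

variable {A : Type v} [NonUnitalNonAssocRing A]

/-- the basic product -/
def wd (t : ℕ → A) (n : ℕ) (x a b c d w₁ w₂ w₃ w₄ : A) : A :=
  (((x * a) * w₁) * ((x * b) * w₂)) * fill t ((((x * c) * d) * w₃) * w₄) n

/-- the identities -/
def GG (t : ℕ → A) (n : ℕ) (x : A) (y w : ℕ → A) : A :=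
  wd t n x (y 0) (y 1) (y 2) (y 3) (w 0) (w 1) (w 2) (w 3)
    - wd t n x (y 0) (y 1) (y 3) (y 2) (w 0) (w 1) (w 2) (w 3)
    + wd t n x (y 0) (y 2) (y 3) (y 1) (w 0) (w 1) (w 2) (w 3)
    - wd t n x (y 1) (y 2) (y 3) (y 0) (w 0) (w 1) (w 2) (w 3)

end polys

section hom

variable {F : Type u} [Field F] {A : Type v} [NonUnitalNonAssocRing A] [Module F A]
  {B : Type*} [NonUnitalNonAssocRing B] [Module F B]

theorem map_wd (φ : A →ₙₐ[F] B) (t : ℕ → A) (n : ℕ) (x a b c d w₁ w₂ w₃ w₄ : A) :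
    φ (wd t n x a b c d w₁ w₂ w₃ w₄)
      = wd (fun i => φ (t i)) n (φ x) (φ a) (φ b) (φ c) (φ d) (φ w₁) (φ w₂) (φ w₃) (φ w₄) := by
  simp only [wd, map_mul, map_fill]

theorem map_GG (φ : A →ₙₐ[F] B) (t : ℕ → A) (n : ℕ) (x : A) (y w : ℕ → A) :
    φ (GG t n x y w) = GG (fun i => φ (t i)) n (φ x) (fun i => φ (y i)) (fun i => φ (w i)) := by
  simp only [GG, map_sub, map_add, map_wd]

end hom

section Elevel

variable {F : Type u} [Field F] {W : Type u} [AddCommGroup W] [Module F W]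

theorem br_symm (h2 : (2 : F) ≠ 0) (x y : ExteriorAlgebra F W) : br x y = br y x := by
  rw [br, br, ev_comm h2 x (ev y)]
  abel

theorem br_add_left (x y z : ExteriorAlgebra F W) : br (x + y) z = br x z + br y z := by
  simp only [br, map_add, add_mul, mul_add]
  abel

theorem br_add_right (x y z : ExteriorAlgebra F W) : br x (y + z) = br x y + br x z := by
  simp only [br, map_add, add_mul, mul_add]
  abel

theorem ev_even (h2 : (2 : F) ≠ 0) {C : ExteriorAlgebra F W} (hC : sg C = C) : ev C = C := by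
  rw [ev_apply, hC, ← two_smul F, smul_smul, inv_mul_cancel₀ h2, one_smul]

theorem od_even {C : ExteriorAlgebra F W} (hC : sg C = C) : od C = 0 := by
  rw [od_apply, hC, sub_self, smul_zero]

theorem even_comm (h2 : (2 : F) ≠ 0) {C : ExteriorAlgebra F W} (hC : sg C = C)
    (x : ExteriorAlgebra F W) : x * C = C * x := by
  rw [← ev_even h2 hC, ev_comm h2]

theorem br_mul_left (h2 : (2 : F) ≠ 0) {C : ExteriorAlgebra F W} (hC : sg C = C)
    (x y : ExteriorAlgebra F W) : br (x * C) y = br x y * C := by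
  simp only [br, ev_mul h2, od_mul h2, ev_even h2 hC, od_even hC, mul_zero, add_zero, zero_add,
    add_mul, mul_assoc]
  rw [even_comm h2 hC (ev y), even_comm h2 hC (od y)]

theorem br_mul_right (h2 : (2 : F) ≠ 0) {C : ExteriorAlgebra F W} (hC : sg C = C)
    (x y : ExteriorAlgebra F W) : br x (y * C) = br x y * C := by
  rw [br_symm h2, br_mul_left h2 hC, br_symm h2]

/-- the cubic form is the third power of the even part -/
theorem br_cube (h3 : (3 : F) = 0) (a : ExteriorAlgebra F W) : br a a * a = ev a ^ 3 := by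
  have h2 := two_ne h3
  have e := ev_add_od h2 a
  have c1 : od a * ev a = ev a * od a := (ev_comm h2 _ _).symm
  have c2 := od_sq h2 a
  have c3 := smul_three h3 (ev a * ev a * od a)
  calc br a a * a = br a a * (ev a + od a) := by rw [e]
    _ = ev a ^ 3 + (ev a * ev a * od a + ev a * ev a * od a + ev a * ev a * od a)
        + (ev a * (od a * od a) + ev a * (od a * od a)) := by
      rw [br]
      have c4 : ev a * od a * ev a = ev a * ev a * od a := by
        rw [mul_assoc, c1, mul_assoc]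
      simp only [add_mul, mul_add, c4, pow_succ, pow_zero, one_mul, mul_assoc]
      abel
    _ = ev a ^ 3 := by rw [c3, c2, mul_zero]; abel

theorem br_polar (h3 : (3 : F) = 0) (a b : ExteriorAlgebra F W) : br a a * b = br b a * a := by
  have h2 := two_ne h3
  have c1 : od a * ev a = ev a * od a := (ev_comm h2 _ _).symm
  have c2 := od_sq h2 a
  have e : br a a * b = br a a * (ev b + od b) := by rw [ev_add_od h2 b]
  have e' : br b a * a = br b a * (ev a + od a) := by rw [ev_add_od h2 a]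
  rw [e, e', br, br]
  have k1 : ev b * ev a = ev a * ev b := ev_comm h2 _ _
  have k2 : od b * ev a = ev a * od b := (ev_comm h2 _ _).symm
  have k3 : od a * ev b = ev b * od a := (ev_comm h2 _ _).symm
  have k4 : od b * od a = -(od a * od b) := od_anti h2 _ _
  have k5 : ∀ t, ev b * (ev a * t) = ev a * (ev b * t) := fun t => by
    rw [← mul_assoc, k1, mul_assoc]
  simp only [add_mul, mul_add, mul_assoc, k1, k2, k3, k4, c1, c2, k5, mul_zero, add_zero, mul_neg]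
  have k := smul_three h3 (ev a * (od a * od b))
  have k' := smul_three h3 (ev a * (ev a * ev b))
  rw [← sub_eq_zero, ← k]
  abel

/-- trilinear expansion -/
theorem tri (h3 : (3 : F) = 0) {a b₁ b₂ b₃ C₁ C₂ C₃ D₁ D₂ D₃ : ExteriorAlgebra F W}
    (hC₁ : sg C₁ = C₁) (hC₂ : sg C₂ = C₂) (hC₃ : sg C₃ = C₃)
    (hD₁ : sg D₁ = D₁) (hD₂ : sg D₂ = D₂) (hD₃ : sg D₃ = D₃)
    (h12 : D₁ * D₂ = 0) (h13 : D₁ * D₃ = 0) (h23 : D₂ * D₃ = 0) :
    br (a * C₁ + b₁ * D₁) (a * C₂ + b₂ * D₂) * (a * C₃ + b₃ * D₃)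
      = ev a ^ 3 * (C₁ * C₂ * C₃) + br b₁ a * a * (D₁ * C₂ * C₃)
        + br b₂ a * a * (C₁ * D₂ * C₃) + br b₃ a * a * (C₁ * C₂ * D₃) := by
  have h2 := two_ne h3
  simp only [br_add_left, br_add_right, br_mul_left h2 hC₁, br_mul_left h2 hD₁,
    br_mul_right h2 hC₂, br_mul_right h2 hD₂]
  have z1 : br b₁ b₂ * D₁ * D₂ = 0 := by rw [mul_assoc, h12, mul_zero]
  have m1 : ∀ x y C D E : ExteriorAlgebra F W, sg C = C → sg D = D →
      x * C * D * (y * E) = x * y * (C * D * E) := by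
    intro x y C D E hC hD
    rw [mul_assoc x C D, mul_assoc x (C * D), ← mul_assoc (C * D) y E,
      ← even_comm h2 (C := C * D) (by rw [map_mul, hC, hD]) y, mul_assoc y, ← mul_assoc x]
  simp only [add_mul, mul_add, z1, zero_mul, add_zero, m1 _ _ _ _ _ hC₁ hC₂,
    m1 _ _ _ _ _ hD₁ hC₂, m1 _ _ _ _ _ hC₁ hD₂]
  have z2 : C₁ * D₂ * D₃ = 0 := by rw [mul_assoc, h23, mul_zero]
  have z3 : D₁ * C₂ * D₃ = 0 := by
    rw [mul_assoc, even_comm h2 hD₃, ← mul_assoc, h13, zero_mul]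
  rw [z2, z3, br_cube h3, br_polar h3 a b₃, br_symm h2 a b₂]
  simp only [mul_zero]
  abel

/-- product of four vectors -/
noncomputable def Q4 (F : Type u) [Field F] {W : Type u} [AddCommGroup W] [Module F W]
    (a b c d : W) : ExteriorAlgebra F W :=
  ExteriorAlgebra.ι F a * ExteriorAlgebra.ι F b * ExteriorAlgebra.ι F c * ExteriorAlgebra.ι F d

theorem Q4_12 (a b c d : W) : Q4 F b a c d = -Q4 F a b c d := by
  rw [Q4, Q4, ι_swap b a, neg_mul, neg_mul]

theorem Q4_23 (a b c d : W) : Q4 F a c b d = -Q4 F a b c d := by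
  rw [Q4, Q4, mul_assoc (ExteriorAlgebra.ι F a), ι_swap c b, mul_neg, neg_mul, mul_assoc _ _ _,
    ← mul_assoc (ExteriorAlgebra.ι F a), mul_assoc _ _ (ExteriorAlgebra.ι F d)]
  simp only [mul_assoc]

theorem Q4_34 (a b c d : W) : Q4 F a b d c = -Q4 F a b c d := by
  rw [Q4, Q4, mul_assoc _ (ExteriorAlgebra.ι F d), ι_swap d c, mul_neg, ← mul_assoc]

theorem prod3 (a b c d w₁ w₂ w₃ w₄ : W) (Θ : ExteriorAlgebra F W) :
    (ExteriorAlgebra.ι F a * ExteriorAlgebra.ι F w₁)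
      * (ExteriorAlgebra.ι F b * ExteriorAlgebra.ι F w₂)
      * (ExteriorAlgebra.ι F c * (ExteriorAlgebra.ι F d
        * (ExteriorAlgebra.ι F w₃ * (ExteriorAlgebra.ι F w₄ * Θ))))
      = -(Q4 F a b c d * (ExteriorAlgebra.ι F w₁ * (ExteriorAlgebra.ι F w₂
        * (ExteriorAlgebra.ι F w₃ * (ExteriorAlgebra.ι F w₄ * Θ))))) := by
  set T := ExteriorAlgebra.ι F w₃ * (ExteriorAlgebra.ι F w₄ * Θ)
  have s : ∀ u v : W, ∀ t, ExteriorAlgebra.ι F u * (ExteriorAlgebra.ι F v * t)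
      = -(ExteriorAlgebra.ι F v * (ExteriorAlgebra.ι F u * t)) := by
    intro u v t; rw [← mul_assoc, ι_swap, neg_mul, mul_assoc]
  simp only [Q4, mul_assoc]
  rw [s w₁ b, s w₂ c]
  simp only [mul_neg, neg_neg]
  rw [s w₁ c, s w₂ d]
  simp only [mul_neg, neg_neg]
  rw [s w₁ d]
  simp only [mul_neg]

end Elevel

namespace Alg

variable {F : Type u} [Field F] {W : Type u} [AddCommGroup W] [Module F W]
  {τ : ExteriorAlgebra F W →ₗ[F] F}

theorem fill_c (t : ℕ → Alg τ) (s : Alg τ) (hs : s.c = 0) (n : ℕ) :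
    (fill t s n).c = 0 ∧ (fill t s n).al = s.al * wp (fun i => (t i).c) n := by
  induction n with
  | zero => exact ⟨hs, by simp [fill, wp]⟩
  | succ n ih =>
    refine ⟨by simp [fill], ?_⟩
    rw [fill, al_mul, ih.1, ih.2, map_zero, mul_zero, add_zero, mul_assoc]
    rfl

theorem prod_val (h3 : (3 : F) = 0) (X Y Z : Alg τ) (hX : X.c = 0) (hY : Y.c = 0) (hZ : Z.c = 0) :
    (X * Y) * Z = mk 0 0 0 (τ (br X.al Y.al * Z.al)) := by
  have h0 : (X * Y).al = 0 := by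
    rw [al_mul, hX, hY, map_zero, mul_zero, mul_zero, add_zero]
  refine ext ?_ ?_ ?_ ?_
  · simp
  · rw [al_mul, h0, hZ, c_mul, map_zero, mul_zero, mul_zero, add_zero]; rfl
  · rw [de_mul' h3, h0, hZ, c_mul, map_zero, mul_zero, mul_zero, add_zero, zero_add, br, map_zero,
      map_zero]
    simp
  · rw [z_mul, h0, mul_zero, map_zero, add_zero, de_mul' h3, hX, hY, map_zero, mul_zero, mul_zero,
      add_zero, zero_add]
    rfl

/-- the value of the basic product -/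
theorem wd_val (h3 : (3 : F) = 0) (t : ℕ → Alg τ) (n : ℕ) (hn : Even n)
    (x a b c d w₁ w₂ w₃ w₄ : Alg τ) :
    wd t n x a b c d w₁ w₂ w₃ w₄ = mk 0 0 0 (-τ (
      ev x.al ^ 3 * (Q4 F a.c b.c c.c d.c * (ExteriorAlgebra.ι F w₁.c * (ExteriorAlgebra.ι F w₂.c
        * (ExteriorAlgebra.ι F w₃.c * (ExteriorAlgebra.ι F w₄.c * wp (fun i => (t i).c) n)))))
      + br a.al x.al * x.al * (Q4 F x.c b.c c.c d.c * (ExteriorAlgebra.ι F w₁.c
        * (ExteriorAlgebra.ι F w₂.c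
        * (ExteriorAlgebra.ι F w₃.c * (ExteriorAlgebra.ι F w₄.c * wp (fun i => (t i).c) n)))))
      + br b.al x.al * x.al * (Q4 F a.c x.c c.c d.c * (ExteriorAlgebra.ι F w₁.c
        * (ExteriorAlgebra.ι F w₂.c
        * (ExteriorAlgebra.ι F w₃.c * (ExteriorAlgebra.ι F w₄.c * wp (fun i => (t i).c) n)))))
      + br c.al x.al * x.al * (Q4 F a.c b.c x.c d.c * (ExteriorAlgebra.ι F w₁.c
        * (ExteriorAlgebra.ι F w₂.c
        * (ExteriorAlgebra.ι F w₃.c * (ExteriorAlgebra.ι F w₄.c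
          * wp (fun i => (t i).c) n))))))) := by
  have h2 := two_ne h3
  obtain ⟨f1, f2⟩ := fill_c t ((((x * c) * d) * w₃) * w₄) (c_mul _ _) n
  rw [wd, prod_val h3 _ _ _ (c_mul _ _) (c_mul _ _) f1, f2]
  simp only [al_mulV _ _ (c_mul _ _)]
  simp only [al_mul, add_mul, mul_assoc]
  set Θ := wp (F := F) (fun i => (t i).c) n with hΘ
  have sΘ : sg Θ = Θ := by rw [hΘ, sg_wp, hn.neg_one_pow, one_smul]
  have e2 : ∀ u v : W, sg (ExteriorAlgebra.ι F u * ExteriorAlgebra.ι F v)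
      = ExteriorAlgebra.ι F u * ExteriorAlgebra.ι F v := by
    intro u v; rw [map_mul, sg_ι, sg_ι, neg_mul_neg]
  have e4 : ∀ u v u' v' : W, sg (ExteriorAlgebra.ι F u * (ExteriorAlgebra.ι F v
      * (ExteriorAlgebra.ι F u' * (ExteriorAlgebra.ι F v' * Θ))))
      = ExteriorAlgebra.ι F u * (ExteriorAlgebra.ι F v
      * (ExteriorAlgebra.ι F u' * (ExteriorAlgebra.ι F v' * Θ))) := by
    intro u v u' v'
    simp only [map_mul, sg_ι, sΘ, neg_mul, mul_neg, neg_neg]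
  have z : ∀ t : ExteriorAlgebra F W, ExteriorAlgebra.ι F x.c * (ExteriorAlgebra.ι F x.c * t) = 0 :=
    ιsq' _
  have z2 : ∀ (u v : W) (t : ExteriorAlgebra F W), (ExteriorAlgebra.ι F x.c * ExteriorAlgebra.ι F u)
      * (ExteriorAlgebra.ι F x.c * t) = 0 := by
    intro u v t
    rw [mul_assoc, ← mul_assoc _ (ExteriorAlgebra.ι F x.c), ι_swap u, neg_mul, mul_assoc, mul_neg, z,
      neg_zero]
  rw [tri h3 (e2 _ _) (e2 _ _) (e4 _ _ _ _) (e2 _ _) (e2 _ _) (e4 _ _ _ _) (z2 _ 0 _) (z2 _ 0 _)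
    (z2 _ 0 _)]
  simp only [prod3]
  congr 1
  rw [← map_neg]
  congr 1
  simp only [mul_neg, neg_add_rev, mul_assoc]
  abel

/-- the value of the identities -/
theorem GG_val (h3 : (3 : F) = 0) (t : ℕ → Alg τ) (n : ℕ) (hn : Even n) (x : Alg τ)
    (y w : ℕ → Alg τ) :
    GG t n x y w = mk 0 0 0 (-τ (ev x.al ^ 3 * (Q4 F (y 0).c (y 1).c (y 2).c (y 3).c
      * (ExteriorAlgebra.ι F (w 0).c * (ExteriorAlgebra.ι F (w 1).c
        * (ExteriorAlgebra.ι F (w 2).c * (ExteriorAlgebra.ι F (w 3).c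
          * wp (fun i => (t i).c) n))))))) := by
  rw [GG, wd_val h3 t n hn, wd_val h3 t n hn, wd_val h3 t n hn, wd_val h3 t n hn]
  generalize ExteriorAlgebra.ι F (w 0).c * (ExteriorAlgebra.ι F (w 1).c
        * (ExteriorAlgebra.ι F (w 2).c * (ExteriorAlgebra.ι F (w 3).c
          * wp (fun i => (t i).c) n))) = R
  generalize ev x.al ^ 3 = e
  generalize br (y 0).al x.al * x.al = P0
  generalize br (y 1).al x.al * x.al = P1
  generalize br (y 2).al x.al * x.al = P2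
  generalize br (y 3).al x.al * x.al = P3
  generalize x.c = u
  generalize (y 0).c = y0
  generalize (y 1).c = y1
  generalize (y 2).c = y2
  generalize (y 3).c = y3
  refine ext (by simp) (by simp) (by simp) ?_
  simp only [z_sub, z_add, z_mk]
  have m2 : Q4 F y0 y1 y3 y2 = -Q4 F y0 y1 y2 y3 := Q4_34 _ _ _ _
  have m3 : Q4 F y0 y2 y3 y1 = Q4 F y0 y1 y2 y3 := by rw [Q4_34, Q4_23, neg_neg]
  have m4 : Q4 F y1 y2 y3 y0 = -Q4 F y0 y1 y2 y3 := by
    rw [Q4_34, Q4_23, neg_neg, Q4_12]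
  have a2 : Q4 F u y1 y3 y2 = -Q4 F u y1 y2 y3 := Q4_34 _ _ _ _
  have a3 : Q4 F u y2 y3 y1 = Q4 F u y1 y2 y3 := by rw [Q4_34, Q4_23, neg_neg]
  have b2 : Q4 F y0 u y3 y2 = -Q4 F y0 u y2 y3 := Q4_34 _ _ _ _
  have b4 : Q4 F u y2 y3 y0 = -Q4 F y0 u y2 y3 := by
    rw [Q4_34, Q4_23, neg_neg, Q4_12]
  have c3 : Q4 F y0 u y3 y1 = Q4 F y0 y1 u y3 := by rw [Q4_34, Q4_23, neg_neg]
  have c4 : Q4 F y1 u y3 y0 = -Q4 F y0 y1 u y3 := by
    rw [Q4_34, Q4_23, neg_neg, Q4_12]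
  have d2 : Q4 F y0 y1 u y2 = -Q4 F y0 y1 y2 u := Q4_34 _ _ _ _
  have d3 : Q4 F y0 y2 u y1 = Q4 F y0 y1 y2 u := by rw [Q4_34, Q4_23, neg_neg]
  have d4 : Q4 F y1 y2 u y0 = -Q4 F y0 y1 y2 u := by
    rw [Q4_34, Q4_23, neg_neg, Q4_12]
  rw [m2, m3, m4, a2, a3, b2, b4, c3, c4, d2, d3, d4]
  simp only [neg_mul, mul_neg, map_add, map_neg]
  linear_combination (-τ (e * (Q4 F y0 y1 y2 y3 * R)) - τ (P0 * (Q4 F u y1 y2 y3 * R))
    - τ (P1 * (Q4 F y0 u y2 y3 * R)) - τ (P2 * (Q4 F y0 y1 u y3 * R))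
    - τ (P3 * (Q4 F y0 y1 y2 u * R))) * h3

end Alg

end Pool.Agent.J4.H9.SA
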